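import Mathlib
import Pool.Agent.Helper973_OutC.Base
import Pool.Agent.Helper973_Cls.Apply

set_option autoImplicit false

namespace Pool.Agent.Results.MP_1f2b6a_al.AbelianByClass

open Subgroup Pool.Agent.Helper973_OutC Pool.Agent.Helper973_Cls
open scoped commutatorElement

/-- Let `G` be a finite group and `1 ≤ k ≤ j` such that `γ_{j+1}(G)` and `γ_{k+1}(G)` commute
elementwise. Then `Out_c(G)` is nilpotent of class at most `j + 1 + k(k+1)/2`.
In particular (`j = k`), if `γ_{k+1}(G)` is abelian, then the class of `Out_c(G)` is at most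
`(k+1)(k+2)/2`. -/
theorem result (G : Type) [Group G] [Finite G] (j k : ℕ) (hk : 1 ≤ k) (hkj : k ≤ j)
    (h : ⁅(⊤ : Subgroup G).lowerCentralSeries j, (⊤ : Subgroup G).lowerCentralSeries k⁆ = ⊥) :
    ∃ _ : Group.IsNilpotent (OutC G),
      Group.nilpotencyClass (OutC G) ≤ j + 1 + k * (k + 1) / 2 := by
  obtain ⟨l, rfl⟩ : ∃ l, k = l + 1 := ⟨k - 1, by omega⟩
  have hc : ∀ a ∈ gam G j, ∀ u ∈ gam G (l + 1), a * u = u * a := by
    intro a ha u hu
    have h2 : ⁅a, u⁆ ∈ (⊥ : Subgroup G) := by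
      rw [← h]
      exact Subgroup.commutator_mem_commutator ha hu
    rw [Subgroup.mem_bot, commutatorElement_eq_one_iff_mul_comm] at h2
    exact h2
  have hA : ∀ a ∈ gam G j, ∀ b ∈ gam G j, a * b = b * a :=
    fun a ha b hb => hc a ha b (gam_anti hkj hb)
  have h2 := outC_lcs (lcs_le_InnC j l hA hc)
  have hN : Group.IsNilpotent (OutC G) := Subgroup.nilpotent_iff_lowerCentralSeries.mpr ⟨_, h2⟩
  refine ⟨hN, (Subgroup.lowerCentralSeries_eq_bot_iff_nilpotencyClass_le.mp h2).trans ?_⟩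
  have h3 := T_eq l
  have h4 : T l = (l + 1) * (l + 1 + 1) / 2 := by
    have : (l + 1) * (l + 1 + 1) = 2 * T l := by rw [h3]
    rw [this]
    omega
  omega

end Pool.Agent.Results.MP_1f2b6a_al.AbelianByClass
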