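import Mathlib
import Pool.Agent.Helper973_OutC.Base
import Pool.Agent.Helper973_Meta.Rank
import Pool.Agent.Helper973_Meta.Split

set_option autoImplicit false

namespace Pool.Agent.Results.MP_1f2b6a_al.AbelianSupplement

open Subgroup Pool.Agent.Helper973_OutC Pool.Agent.Helper973_Meta
open scoped commutatorElement

/-- Let `G` be a finite group with an abelian subgroup `A` containing the commutator subgroup.
If `G = A H` for some abelian subgroup `H` then `Out_c(G)` is nilpotent of class at most `2`; and
if `G` is generated by `A` and `r` elements then `Out_c(G)` is nilpotent of class at most `r`. -/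
theorem result (G : Type) [Group G] [Finite G] (A : Subgroup G)
    (hA : ∀ a ∈ A, ∀ b ∈ A, a * b = b * a) (hG : commutator G ≤ A) :
    (∀ H : Subgroup G, (∀ a ∈ H, ∀ b ∈ H, a * b = b * a) → A ⊔ H = ⊤ →
      ∃ _ : Group.IsNilpotent (OutC G), Group.nilpotencyClass (OutC G) ≤ 2) ∧
    (∀ (r : ℕ) (g : Fin r → G), A ⊔ Subgroup.closure (Set.range g) = ⊤ →
      ∃ _ : Group.IsNilpotent (OutC G), Group.nilpotencyClass (OutC G) ≤ r) := by
  have hGA : gam G 1 ≤ A := by
    have : gam G 1 = commutator G := by
      rw [gam, Subgroup.lowerCentralSeries_succ, Subgroup.lowerCentralSeries_zero]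
      rfl
    rw [this]; exact hG
  have hn : A.Normal := by
    constructor
    intro a ha x
    have h1 : x * a * x⁻¹ = ⁅x, a⁆ * a := by rw [commutatorElement_def]; group
    rw [h1]
    exact A.mul_mem (hGA (comm_mem_left (n := 0) (Subgroup.mem_top x) a)) ha
  constructor
  · intro H hH hAH
    have h1 := Spl.Dec.lcs (A := A) (H := H) ⟨hA, hH, hAH⟩
    have hN : Group.IsNilpotent (OutC G) := Subgroup.nilpotent_iff_lowerCentralSeries.mpr ⟨_, h1⟩
    exact ⟨hN, Subgroup.lowerCentralSeries_eq_bot_iff_nilpotencyClass_le.mp h1⟩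
  · intro r g hg
    have h1 := Rank.outC_lcs (Rank.lcs_le_InnC A hA hGA r g hg)
    have hN : Group.IsNilpotent (OutC G) := Subgroup.nilpotent_iff_lowerCentralSeries.mpr ⟨_, h1⟩
    exact ⟨hN, Subgroup.lowerCentralSeries_eq_bot_iff_nilpotencyClass_le.mp h1⟩

end Pool.Agent.Results.MP_1f2b6a_al.AbelianSupplement
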