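import Mathlib
import Pool.Agent.Helper973_OutC.Base
import Pool.Agent.Helper973_Cyc.Quot

set_option autoImplicit false

namespace Pool.Agent.Results.MP_1f2b6a_al.CyclicFactor

open Subgroup Pool.Agent.Helper973_OutC Pool.Agent.Helper973_Cyc

/-- a cyclic factor `A / B` of two subgroups gives a generator modulo `B` -/
theorem exists_gen {G : Type*} [Group G] (A B : Subgroup G) [(B.subgroupOf A).Normal]
    (h : IsCyclic (A ⧸ B.subgroupOf A)) : ∃ g : G, A ≤ zpowers g ⊔ B := by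
  obtain ⟨q, hq⟩ := h.exists_generator
  obtain ⟨g, rfl⟩ := QuotientGroup.mk_surjective q
  refine ⟨(g : G), fun x hx => ?_⟩
  obtain ⟨n, hn⟩ := Subgroup.mem_zpowers_iff.1 (hq (QuotientGroup.mk ⟨x, hx⟩))
  rw [← QuotientGroup.mk_zpow, QuotientGroup.eq] at hn
  have h1 : ((g : G) ^ n)⁻¹ * x ∈ B := by
    have := Subgroup.mem_subgroupOf.1 hn
    simpa using this
  have h2 : x = (g : G) ^ n * (((g : G) ^ n)⁻¹ * x) := by group
  rw [h2]
  exact Subgroup.mul_mem_sup (Subgroup.zpow_mem_zpowers _ n) h1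

/-- Let `G` be a finite nilpotent group of class `c` such that the factor
`γ_i(G) / γ_{i+1}(G)` is cyclic for some `2 ≤ i ≤ c`. Then `Out_c(G)` is nilpotent of class at most
`c - 2`; and if `γ_2(G) / γ_3(G)` is cyclic then its class is at most `⌊(c - 1) / 2⌋`. -/
theorem result (G : Type) [Group G] [Finite G] [Group.IsNilpotent G] (i : ℕ) (h1 : 2 ≤ i)
    (h2 : i ≤ Group.nilpotencyClass G)
    (hcyc : IsCyclic (((⊤ : Subgroup G).lowerCentralSeries (i - 1)) ⧸
      ((⊤ : Subgroup G).lowerCentralSeries i).subgroupOf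
        ((⊤ : Subgroup G).lowerCentralSeries (i - 1)))) :
    ∃ _ : Group.IsNilpotent (OutC G),
      Group.nilpotencyClass (OutC G) ≤ Group.nilpotencyClass G - 2 ∧
      (i = 2 → Group.nilpotencyClass (OutC G) ≤ (Group.nilpotencyClass G - 1) / 2) := by
  obtain ⟨k, rfl⟩ : ∃ k, i = k + 2 := ⟨i - 2, by omega⟩
  obtain ⟨g, hg⟩ := exists_gen _ _ hcyc
  have hg' : gam G (k + 1) ≤ zpowers g ⊔ gam G (k + 2) := hg
  have hc : gam G (Group.nilpotencyClass G) = ⊥ := Subgroup.lowerCentralSeries_nilpotencyClass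
  have h3 := main_cyclic hg' hc h2
  have hn : Group.IsNilpotent (OutC G) := Subgroup.nilpotent_iff_lowerCentralSeries.mpr ⟨_, h3⟩
  refine ⟨hn, Subgroup.lowerCentralSeries_eq_bot_iff_nilpotencyClass_le.mp h3, fun hk => ?_⟩
  have hk0 : k = 0 := by omega
  subst hk0
  refine Subgroup.lowerCentralSeries_eq_bot_iff_nilpotencyClass_le.mp
    (main_cyclic_two (n := (Group.nilpotencyClass G - 1) / 2) hg' hc ?_)
  omega

end Pool.Agent.Results.MP_1f2b6a_al.CyclicFactor
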