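import Mathlib
import Pool.Agent.Helper973_OutC.Base
import Pool.Agent.Helper973_TwoGen.Main
import Pool.Agent.Helper973_Three.Main
import Pool.Agent.Helper973_Three.Indep

set_option autoImplicit false

namespace Pool.Agent.Results.MP_1f2b6a_al.FewGenerators

open Subgroup Pool.Agent.Helper973_OutC Pool.Agent.Helper973_TwoGen Pool.Agent.Helper973_Three
open scoped commutatorElement

/-- `Out_c(G)` is nilpotent of class at most `n` -/
def OutClassLE (G : Type) [Group G] (n : ℕ) : Prop :=
  ∃ _ : Group.IsNilpotent (OutC G), Group.nilpotencyClass (OutC G) ≤ n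

/-- the commutators `[x i, x j]`, `i < j`, are independent modulo `γ_3(G)`: if a product of powers
of them lies in `γ_3(G)`, then so does each factor -/
def IndepMod3 (G : Type) [Group G] (d : ℕ) (x : Fin d → G) : Prop :=
  ∀ n : Fin d → Fin d → ℤ,
    (List.ofFn fun i => (List.ofFn fun j => if i < j then ⁅x i, x j⁆ ^ n i j else 1).prod).prod
      ∈ (⊤ : Subgroup G).lowerCentralSeries 2 →
    ∀ i j, i < j → ⁅x i, x j⁆ ^ n i j ∈ (⊤ : Subgroup G).lowerCentralSeries 2

theorem conclude {G : Type} [Group G] {n : ℕ}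
    (h : (⊤ : Subgroup (OutC G)).lowerCentralSeries n = ⊥) : OutClassLE G n := by
  have hn : Group.IsNilpotent (OutC G) := Subgroup.nilpotent_iff_lowerCentralSeries.mpr ⟨_, h⟩
  exact ⟨hn, Subgroup.lowerCentralSeries_eq_bot_iff_nilpotencyClass_le.mp h⟩

/-- Let `G` be nilpotent of class `c`. (1) If every class-preserving automorphism of
`G / γ_{k+1}(G)` is inner (`k ≥ 1`), then `Out_c(G)` is nilpotent of class at most
`⌊(c - 1) / k⌋`. (2) If `G` is a finite `p`-group generated by three elements, then
`Out_c(G)` is nilpotent of class at most `⌊(c - 1) / 2⌋`; if it is generated by two elements, of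
class at most `⌊(c - 1) / min(p, 3)⌋`. (3) If `G` is generated by finitely many elements whose
commutators are independent modulo `γ_3(G)`, then `Out_c(G)` is nilpotent of class at most
`⌊(c - 1) / 2⌋`. -/
theorem result (G : Type) [Group G] [Group.IsNilpotent G] :
    (∀ k : ℕ, 1 ≤ k → InnC (G ⧸ (⊤ : Subgroup G).lowerCentralSeries k) = ⊤ →
      OutClassLE G ((Group.nilpotencyClass G - 1) / k)) ∧
    (∀ p : ℕ, p.Prime → Finite G → IsPGroup p G →
      (∀ x y z : G, Subgroup.closure {x, y, z} = ⊤ →
        OutClassLE G ((Group.nilpotencyClass G - 1) / 2)) ∧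
      (∀ x y : G, Subgroup.closure {x, y} = ⊤ →
        OutClassLE G ((Group.nilpotencyClass G - 1) / min p 3))) ∧
    (∀ (d : ℕ) (x : Fin d → G), Subgroup.closure (Set.range x) = ⊤ → IndepMod3 G d x →
      OutClassLE G ((Group.nilpotencyClass G - 1) / 2)) := by
  have hc : gam G (Group.nilpotencyClass G) = ⊥ := Subgroup.lowerCentralSeries_nilpotencyClass
  refine ⟨?_, ?_, ?_⟩
  · intro k hk hT
    obtain ⟨l, rfl⟩ : ∃ l, k = l + 1 := ⟨k - 1, by omega⟩
    refine conclude (outC_lcs_eq_bot (k := l) (c := Group.nilpotencyClass G) ?_ hc ?_)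
    · intro α
      refine of_quot (k := l + 1) (fun β hβ => ?_) α.2
      have h1 : (⟨β, hβ⟩ : AutC (G ⧸ gam G (l + 1))) ∈ InnC (G ⧸ gam G (l + 1)) := by
        rw [hT]; exact Subgroup.mem_top _
      obtain ⟨q, hq⟩ := h1
      refine ⟨q, fun t => ?_⟩
      have h3 := congrArg (fun f : MulAut (G ⧸ gam G (l + 1)) => f t) hq
      exact h3.symm
    · have h2 := Nat.lt_mul_div_succ (Group.nilpotencyClass G - 1) (Nat.succ_pos l)
      have h3 : l.succ = l + 1 := rfl
      rw [h3] at h2
      omega
  · intro p hprime hfin hp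
    have hf : Fact p.Prime := ⟨hprime⟩
    constructor
    · intro x y z hxyz
      exact conclude (three_gen hp hxyz hc (by omega))
    · intro x y hxy
      have hpos : 0 < min p 3 := lt_min hprime.pos (by norm_num)
      refine conclude (two_gen hp hxy hc ?_)
      have h2 := Nat.lt_mul_div_succ (Group.nilpotencyClass G - 1) hpos
      omega
  · intro d x hx hI
    exact conclude (indep_gen hx hI hc (by omega))

end Pool.Agent.Results.MP_1f2b6a_al.FewGenerators
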